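import Mathlib
import Pool.Agent.H796R3.AO.Stmts

set_option autoImplicit false

/-! Project H796AO, Task B: balanced labellings and perfect matchings. -/

namespace Pool.Agent.H190R3.AOTaskB

open Pool.Agent.H796R3.AO

theorem pm_iff {X : Type*} (G : SimpleGraph X) :
    (∃ M : G.Subgraph, M.IsPerfectMatching) ↔
      ∃ f : X → X, (∀ x, G.Adj x (f x)) ∧ ∀ x, f (f x) = x := by
  constructor
  · rintro ⟨M, hM⟩
    rw [SimpleGraph.Subgraph.isPerfectMatching_iff] at hM
    choose f hf using fun x => (hM x)
    refine ⟨f, fun x => (hf x).1.adj_sub, fun x => ?_⟩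
    exact ((hf (f x)).2 x (hf x).1.symm).symm
  · rintro ⟨f, h1, h2⟩
    refine ⟨{ verts := Set.univ, Adj := fun x y => y = f x, adj_sub := ?_, edge_vert := ?_,
              symm := ?_ }, ?_⟩
    · intro x y h
      rw [h]
      exact h1 x
    · intro x y h
      trivial
    · refine ⟨fun x y h => ?_⟩
      rw [h, h2]
    · rw [SimpleGraph.Subgraph.isPerfectMatching_iff]
      intro x
      exact ⟨f x, rfl, fun y hy => hy⟩

section

variable {V E : Type} [Fintype E] [DecidableEq V] (Γ : Root V E) (T : Set E)

theorem adj_hh (p q : {p : E × V // p.2 ∈ Γ.ends p.1}) :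
    (Γ.aux T).Adj (Sum.inl p) (Sum.inl q) ↔ p.1.1 = q.1.1 ∧ p.1.2 ≠ q.1.2 ∧ p.1.1 ∉ T := by
  unfold Root.aux
  rw [SimpleGraph.fromRel_adj]
  constructor
  · rintro ⟨-, h | h⟩
    · exact h
    · obtain ⟨h1, h2, h3⟩ := h
      exact ⟨h1.symm, fun h => h2 h.symm, by rw [← h1]; exact h3⟩
  · intro h
    refine ⟨?_, Or.inl h⟩
    intro he
    rw [Sum.inl.injEq] at he
    exact h.2.1 (by rw [he])

theorem adj_hc (p : {p : E × V // p.2 ∈ Γ.ends p.1}) (c : Σ v : V, Fin (Γ.deg v / 2)) :
    (Γ.aux T).Adj (Sum.inl p) (Sum.inr (Sum.inl c)) ↔ p.1.2 = c.1 := by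
  unfold Root.aux
  rw [SimpleGraph.fromRel_adj]
  constructor
  · rintro ⟨-, h | h⟩
    · exact h
    · exact h.elim
  · intro h
    exact ⟨by simp, Or.inl h⟩

theorem adj_hm (p : {p : E × V // p.2 ∈ Γ.ends p.1}) (e : {e : E // e ∈ T}) :
    (Γ.aux T).Adj (Sum.inl p) (Sum.inr (Sum.inr e)) ↔ p.1.1 = e.1 := by
  unfold Root.aux
  rw [SimpleGraph.fromRel_adj]
  constructor
  · rintro ⟨-, h | h⟩
    · exact h
    · exact h.elim
  · intro h
    exact ⟨by simp, Or.inl h⟩

theorem not_adj_rr (a b : (Σ v : V, Fin (Γ.deg v / 2)) ⊕ {e : E // e ∈ T}) :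
    ¬ (Γ.aux T).Adj (Sum.inr a) (Sum.inr b) := by
  unfold Root.aux
  rw [SimpleGraph.fromRel_adj]
  rintro ⟨-, h | h⟩
  · rcases a with a | a <;> rcases b with b | b <;> exact h.elim
  · rcases a with a | a <;> rcases b with b | b <;> exact h.elim

/-- two elements of `ends e` different from a third one coincide -/
theorem ends_unique {e : E} {v w x : V} (hv : v ∈ Γ.ends e) (hw : w ∈ Γ.ends e)
    (hx : x ∈ Γ.ends e) (h1 : w ≠ v) (h2 : x ≠ v) : w = x := by
  obtain ⟨a, b, hab, he⟩ := Finset.card_eq_two.1 (Γ.card_ends e)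
  rw [he] at hv hw hx
  simp only [Finset.mem_insert, Finset.mem_singleton] at hv hw hx
  rcases hv with rfl | rfl <;> rcases hw with rfl | rfl <;> rcases hx with rfl | rfl <;>
    first | rfl | exact absurd rfl h1 | exact absurd rfl h2

theorem exists_other {e : E} {v : V} (hv : v ∈ Γ.ends e) : ∃ w ∈ Γ.ends e, w ≠ v := by
  obtain ⟨a, b, hab, he⟩ := Finset.card_eq_two.1 (Γ.card_ends e)
  rw [he] at hv ⊢
  simp only [Finset.mem_insert, Finset.mem_singleton] at hv
  rcases hv with rfl | rfl
  · exact ⟨b, by simp, hab.symm⟩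
  · exact ⟨a, by simp, hab⟩

/-- sum of signs -/
theorem sum_sgn (σ : E → V → Bool) (v : V) :
    (∑ e with v ∈ Γ.ends e, sgn (σ e v)) =
      (Γ.deg v : ℤ) - 2 * ((Finset.univ.filter fun e => v ∈ Γ.ends e ∧ σ e v = false).card : ℤ) := by
  have h1 : ∀ e, sgn (σ e v) = 1 - 2 * (if σ e v = false then 1 else 0) := by
    intro e
    unfold sgn
    cases σ e v <;> simp
  rw [Finset.sum_congr rfl (fun e _ => h1 e), Finset.sum_sub_distrib, ← Finset.mul_sum,
    Finset.sum_boole, Finset.filter_filter]
  simp [Root.deg]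

end

theorem taskB : TaskB := by
  classical
  intro V E _ _ _ Γ T
  rw [pm_iff]
  constructor
  · -- from labellings to matchings
    rintro ⟨σ, hσ⟩
    have hcard : ∀ v, (Finset.univ.filter fun e => v ∈ Γ.ends e ∧ σ e v = false).card
        = Γ.deg v / 2 := by
      intro v
      have h1 := sum_sgn Γ σ v
      rcases hσ.vert v with h | h
      · rw [h] at h1; omega
      · rw [h] at h1; omega
    have hβ : ∀ v, Nonempty ({e // v ∈ Γ.ends e ∧ σ e v = false} ≃ Fin (Γ.deg v / 2)) := by
      intro v
      refine ⟨Fintype.equivFinOfCardEq ?_⟩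
      rw [Fintype.card_subtype, hcard v]
    let β := fun v => (hβ v).some
    -- the other end
    choose oth hoth1 hoth2 using fun (p : {p : E × V // p.2 ∈ Γ.ends p.1}) => exists_other Γ p.2
    -- the true half of an edge in `T`
    have htrue : ∀ e : {e : E // e ∈ T}, ∃ v, v ∈ Γ.ends e.1 ∧ σ e.1 v = true := by
      intro e
      obtain ⟨a, b, hab, he⟩ := Finset.card_eq_two.1 (Γ.card_ends e.1)
      have ha : a ∈ Γ.ends e.1 := by rw [he]; simp
      have hb : b ∈ Γ.ends e.1 := by rw [he]; simp
      have h1 := (hσ.edge e.1 a ha b hb hab).2 e.2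
      rcases Bool.eq_false_or_eq_true (σ e.1 a) with h | h
      · exact ⟨a, ha, h⟩
      · refine ⟨b, hb, ?_⟩
        rw [h] at h1
        rcases Bool.eq_false_or_eq_true (σ e.1 b) with h' | h'
        · exact h'
        · exact absurd h'.symm h1
    choose tr htr1 htr2 using htrue
    let f : Γ.AuxV T → Γ.AuxV T := fun x => match x with
      | .inl p => if h : σ p.1.1 p.1.2 = false then
            .inr (.inl ⟨p.1.2, β p.1.2 ⟨p.1.1, p.2, h⟩⟩)
          else if h' : p.1.1 ∈ T then .inr (.inr ⟨p.1.1, h'⟩)
          else .inl ⟨(p.1.1, oth p), hoth1 p⟩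
      | .inr (.inl c) => .inl ⟨(((β c.1).symm c.2).1, c.1), ((β c.1).symm c.2).2.1⟩
      | .inr (.inr e) => .inl ⟨(e.1, tr e), htr1 e⟩
    have f1 : ∀ (p : {p : E × V // p.2 ∈ Γ.ends p.1}) (h : σ p.1.1 p.1.2 = false),
        f (.inl p) = .inr (.inl ⟨p.1.2, β p.1.2 ⟨p.1.1, p.2, h⟩⟩) := by
      intro p h
      exact dif_pos h
    have f2 : ∀ (p : {p : E × V // p.2 ∈ Γ.ends p.1}) (h : ¬ σ p.1.1 p.1.2 = false)
        (h' : p.1.1 ∈ T), f (.inl p) = .inr (.inr ⟨p.1.1, h'⟩) := by
      intro p h h'
      exact (dif_neg h).trans (dif_pos h')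
    have f3 : ∀ (p : {p : E × V // p.2 ∈ Γ.ends p.1}) (h : ¬ σ p.1.1 p.1.2 = false)
        (h' : ¬ p.1.1 ∈ T), f (.inl p) = .inl ⟨(p.1.1, oth p), hoth1 p⟩ := by
      intro p h h'
      exact (dif_neg h).trans (dif_neg h')
    have f4 : ∀ c : (Σ v : V, Fin (Γ.deg v / 2)), f (.inr (.inl c)) =
        .inl ⟨(((β c.1).symm c.2).1, c.1), ((β c.1).symm c.2).2.1⟩ := fun c => rfl
    have f5 : ∀ e : {e : E // e ∈ T}, f (.inr (.inr e)) = .inl ⟨(e.1, tr e), htr1 e⟩ :=
      fun e => rfl
    refine ⟨f, ?_, ?_⟩
    · rintro (p | c | e)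
      · by_cases h : σ p.1.1 p.1.2 = false
        · rw [f1 p h, adj_hc]
        · by_cases h' : p.1.1 ∈ T
          · rw [f2 p h h', adj_hm]
          · rw [f3 p h h', adj_hh]
            exact ⟨rfl, (hoth2 p).symm, h'⟩
      · rw [f4, SimpleGraph.adj_comm, adj_hc]
      · rw [f5, SimpleGraph.adj_comm, adj_hm]
    · rintro (p | c | e)
      · by_cases h : σ p.1.1 p.1.2 = false
        · rw [f1 p h, f4]
          congr 1
          apply Subtype.ext
          simp
        · by_cases h' : p.1.1 ∈ T
          · rw [f2 p h h', f5]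
            congr 1
            apply Subtype.ext
            apply Prod.ext
            · rfl
            · show tr ⟨p.1.1, h'⟩ = p.1.2
              by_contra hne
              have h1 := (hσ.edge p.1.1 _ (htr1 ⟨p.1.1, h'⟩) p.1.2 p.2 hne).2 h'
              apply h1
              rw [htr2 ⟨p.1.1, h'⟩]
              exact (Bool.eq_true_of_not_eq_false h).symm
          · rw [f3 p h h']
            have h1 : σ p.1.1 (oth p) = σ p.1.1 p.1.2 := by
              by_contra hne
              exact h' ((hσ.edge p.1.1 (oth p) (hoth1 p) p.1.2 p.2 (hoth2 p)).1 hne)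
            rw [f3 ⟨(p.1.1, oth p), hoth1 p⟩ (by
              show ¬ σ p.1.1 (oth p) = false
              rw [h1]; exact h) h']
            congr 1
            apply Subtype.ext
            apply Prod.ext
            · rfl
            · exact ends_unique Γ (hoth1 p) (hoth1 ⟨(p.1.1, oth p), hoth1 p⟩) p.2
                (hoth2 ⟨(p.1.1, oth p), hoth1 p⟩) (hoth2 p).symm
      · rw [f4, f1 _ ((β c.1).symm c.2).2.2]
        congr 2
        obtain ⟨v, c⟩ := c
        simp
      · rw [f5, f2 _ (by
          show ¬ σ e.1 (tr e) = false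
          rw [htr2 e]; simp) e.2]
  · -- from matchings to labellings
    rintro ⟨f, hf, hff⟩
    let core : {p : E × V // p.2 ∈ Γ.ends p.1} → Prop := fun p =>
      ∃ c, f (.inl p) = .inr (.inl c)
    let σ : E → V → Bool := fun e v => decide (¬ ∃ h : v ∈ Γ.ends e, core ⟨(e, v), h⟩)
    have hσ : ∀ e v (h : v ∈ Γ.ends e), σ e v = false ↔ core ⟨(e, v), h⟩ := by
      intro e v h
      simp only [σ, decide_eq_false_iff_not, not_not]
      exact ⟨fun ⟨_, h'⟩ => h', fun h' => ⟨h, h'⟩⟩
    -- the core at a half-edge is at the right vertex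
    have hcore : ∀ p c, f (.inl p) = .inr (.inl c) → p.1.2 = c.1 := by
      intro p c h
      have := hf (.inl p)
      rw [h, adj_hc] at this
      exact this
    refine ⟨σ, ?_, ?_⟩
    · intro e v hv w hw hvw
      by_cases he : e ∈ T
      · refine ⟨fun _ => he, fun _ => ?_⟩
        -- the middle vertex
        have hm := hf (.inr (.inr ⟨e, he⟩))
        rcases hfm : f (.inr (.inr ⟨e, he⟩)) with q | r
        · rw [hfm, SimpleGraph.adj_comm, adj_hm] at hm
          have hq : f (.inl q) = .inr (.inr ⟨e, he⟩) := by rw [← hfm, hff]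
          -- claim for the two halves
          have key : ∀ a (ha : a ∈ Γ.ends e), core ⟨(e, a), ha⟩ ↔ q.1.2 ≠ a := by
            intro a ha
            constructor
            · rintro ⟨c, hc⟩ hqa
              have : q = ⟨(e, a), ha⟩ := Subtype.ext (Prod.ext hm hqa)
              rw [← this, hq] at hc
              simp at hc
            · intro hqa
              rcases hfa : f (.inl ⟨(e, a), ha⟩) with q' | c | m
              · have h1 := hf (.inl ⟨(e, a), ha⟩)
                rw [hfa, adj_hh] at h1
                exact absurd he h1.2.2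
              · exact ⟨c, hfa⟩
              · exfalso
                have h1 := hf (.inl ⟨(e, a), ha⟩)
                rw [hfa, adj_hm] at h1
                have h2 : m = ⟨e, he⟩ := Subtype.ext h1.symm
                rw [h2] at hfa
                have h3 : f (f (.inl ⟨(e, a), ha⟩)) = .inl q := by rw [hfa, hfm]
                rw [hff] at h3
                rw [Sum.inl.injEq] at h3
                apply hqa
                rw [← h3]
          intro heq
          have k1 : core ⟨(e, v), hv⟩ ↔ core ⟨(e, w), hw⟩ := by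
            rw [← hσ e v hv, ← hσ e w hw, heq]
          rw [key v hv, key w hw] at k1
          have hqe : q.1.2 ∈ Γ.ends e := by
            have := q.2
            rw [hm] at this
            exact this
          by_cases h1 : q.1.2 = v
          · exact (k1.2 (by rw [h1]; exact hvw)) h1
          · exact (k1.1 h1) (ends_unique Γ hv hqe hw h1 hvw.symm)
        · exfalso
          rw [hfm] at hm
          exact not_adj_rr Γ T _ _ hm
      · refine ⟨fun h => (h ?_).elim, fun h => absurd h he⟩
        have key : ∀ a (ha : a ∈ Γ.ends e) b (hb : b ∈ Γ.ends e), a ≠ b →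
            ¬ core ⟨(e, a), ha⟩ → f (.inl ⟨(e, a), ha⟩) = .inl ⟨(e, b), hb⟩ := by
          intro a ha b hb hab hc
          rcases hfa : f (.inl ⟨(e, a), ha⟩) with q' | c | m
          · have h1 := hf (.inl ⟨(e, a), ha⟩)
            rw [hfa, adj_hh] at h1
            obtain ⟨h2, h3, -⟩ := h1
            have h2' : e = q'.1.1 := h2
            have h3' : a ≠ q'.1.2 := h3
            congr 1
            apply Subtype.ext
            apply Prod.ext
            · exact h2'.symm
            · have h4 := q'.2
              rw [← h2'] at h4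
              exact ends_unique Γ ha h4 hb h3'.symm hab.symm
          · exact (hc ⟨c, hfa⟩).elim
          · exfalso
            have h1 := hf (.inl ⟨(e, a), ha⟩)
            rw [hfa, adj_hm] at h1
            have h2 : e = m.1 := h1
            exact he (by rw [h2]; exact m.2)
        have key2 : ∀ a (ha : a ∈ Γ.ends e) b (hb : b ∈ Γ.ends e), a ≠ b →
            ¬ core ⟨(e, a), ha⟩ → ¬ core ⟨(e, b), hb⟩ := by
          intro a ha b hb hab hc hcb
          have h1 := key a ha b hb hab hc
          obtain ⟨c, h2⟩ := hcb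
          rw [← h1, hff] at h2
          simp at h2
        have k : core ⟨(e, v), hv⟩ ↔ core ⟨(e, w), hw⟩ := by
          constructor
          · intro h
            by_contra h'
            exact key2 w hw v hv hvw.symm h' h
          · intro h
            by_contra h'
            exact key2 v hv w hw hvw h' h
        rw [← hσ e v hv, ← hσ e w hw] at k
        cases h1 : σ e v <;> cases h2 : σ e w <;> simp_all
    · intro v
      rw [sum_sgn]
      have hcard : (Finset.univ.filter fun e => v ∈ Γ.ends e ∧ σ e v = false).card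
          = Γ.deg v / 2 := by
        have hc : ∀ c : Fin (Γ.deg v / 2), ∃ q : {p : E × V // p.2 ∈ Γ.ends p.1},
            f (.inr (.inl ⟨v, c⟩)) = .inl q ∧ q.1.2 = v := by
          intro c
          have h1 := hf (.inr (.inl ⟨v, c⟩))
          rcases hfc : f (.inr (.inl ⟨v, c⟩)) with q | r
          · rw [hfc, SimpleGraph.adj_comm, adj_hc] at h1
            exact ⟨q, rfl, h1⟩
          · exfalso
            rw [hfc] at h1
            exact not_adj_rr Γ T _ _ h1
        choose g hg1 hg2 using hc
        have h2 : (Finset.univ : Finset (Fin (Γ.deg v / 2))).card =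
            (Finset.univ.filter fun e => v ∈ Γ.ends e ∧ σ e v = false).card := by
          refine Finset.card_bij (fun c _ => (g c).1.1) ?_ ?_ ?_
          · intro c _
            rw [Finset.mem_filter]
            have hv : v ∈ Γ.ends (g c).1.1 := by
              have := (g c).2
              rw [hg2 c] at this
              exact this
            refine ⟨Finset.mem_univ _, hv, ?_⟩
            rw [hσ _ _ hv]
            have e1 : (⟨((g c).1.1, v), hv⟩ : {p : E × V // p.2 ∈ Γ.ends p.1}) = g c :=
              Subtype.ext (Prod.ext rfl (hg2 c).symm)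
            rw [e1]
            exact ⟨⟨v, c⟩, by rw [← hg1 c, hff]⟩
          · intro c _ c' _ hcc
            have e1 : g c = g c' := Subtype.ext (Prod.ext hcc (by rw [hg2 c, hg2 c']))
            have e2 : f (.inr (.inl ⟨v, c⟩)) = f (.inr (.inl ⟨v, c'⟩)) := by
              rw [hg1 c, hg1 c', e1]
            have e3 := congrArg f e2
            rw [hff, hff] at e3
            simpa using e3
          · intro e he
            rw [Finset.mem_filter] at he
            obtain ⟨-, hv, hs⟩ := he
            rw [hσ e v hv] at hs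
            obtain ⟨⟨v', c⟩, hc⟩ := hs
            have h3 : v = v' := hcore _ _ hc
            subst h3
            refine ⟨c, Finset.mem_univ _, ?_⟩
            have h4 : f (.inr (.inl ⟨v, c⟩)) = .inl ⟨(e, v), hv⟩ := by rw [← hc, hff]
            rw [hg1 c, Sum.inl.injEq] at h4
            rw [h4]
        rw [← h2]
        simp
      rw [hcard]
      omega

end Pool.Agent.H190R3.AOTaskB
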