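import Mathlib

/-! Partial computable functionals on Baire space, given by computable monotone word functions. -/

namespace Pool.Agent.H190R3.Wei

/-- The word `x 0, ..., x (m-1)`. -/
def init (x : ℕ → ℕ) (m : ℕ) : List ℕ := (List.range m).map x

/-- A computable word function which is monotone for the initial-segment order. -/
structure IsMachine (φ : List ℕ → List ℕ) : Prop where
  comp : Computable φ
  mono : ∀ a b, a <+: b → φ a <+: φ b

/-- The partial functional of Baire space induced by a word function `φ` is defined at `x` with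
value `y`: all words `φ (x 0, ..., x (m-1))` are initial segments of `y`, and their lengths are
unbounded. -/
def Maps (φ : List ℕ → List ℕ) (x y : ℕ → ℕ) : Prop :=
  (∀ m, φ (init x m) = init y (φ (init x m)).length) ∧ ∀ n, ∃ m, n ≤ (φ (init x m)).length

/-- Pairing of two points of Baire space: `x` on the even and `y` on the odd places. -/
def pair (x y : ℕ → ℕ) : ℕ → ℕ := fun n => if n % 2 = 0 then x (n / 2) else y (n / 2)

/-- The point with first value `b` followed by `y`. -/
def tag (b : ℕ) (y : ℕ → ℕ) : ℕ → ℕ := fun n => if n = 0 then b else y (n - 1)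

@[simp] lemma length_init (x : ℕ → ℕ) (m : ℕ) : (init x m).length = m := by simp [init]

lemma init_prefix_iff_le {x : ℕ → ℕ} {m n : ℕ} (h : m ≤ n) : init x m <+: init x n := by
  obtain ⟨k, rfl⟩ := Nat.exists_eq_add_of_le h
  refine ⟨((List.range k).map (m + ·)).map x, ?_⟩
  simp [init, List.range_add]

lemma init_getD (x : ℕ → ℕ) (m i d : ℕ) (h : i < m) : (init x m).getD i d = x i := by
  simp [init, List.getD, h]

lemma init_succ (x : ℕ → ℕ) (n : ℕ) : init x (n + 1) = x 0 :: init (fun k => x (k + 1)) n := by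
  simp [init, List.range_succ_eq_map]

lemma init_tag (b : ℕ) (y : ℕ → ℕ) (n : ℕ) : init (tag b y) (n + 1) = b :: init y n := by
  rw [init_succ]; simp [tag]

lemma init_ext {x y : ℕ → ℕ} (h : ∀ n, ∃ m, n ≤ m ∧ init x m = init y m) : x = y := by
  funext n
  obtain ⟨m, hm, h⟩ := h (n + 1)
  have h1 := init_getD x m n 0 hm
  rw [h, init_getD y m n 0 hm] at h1
  exact h1.symm

lemma Maps.unique {φ : List ℕ → List ℕ} {x y z : ℕ → ℕ} (hy : Maps φ x y) (hz : Maps φ x z) :
    y = z := by
  apply init_ext
  intro n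
  obtain ⟨m, hm⟩ := hy.2 n
  exact ⟨_, hm, (hy.1 m).symm.trans (hz.1 m)⟩

lemma Maps.comp {φ ψ : List ℕ → List ℕ} (hφ : IsMachine φ) {x y z : ℕ → ℕ}
    (h1 : Maps ψ x y) (h2 : Maps φ y z) : Maps (fun σ => φ (ψ σ)) x z := by
  refine ⟨fun m => ?_, fun n => ?_⟩
  · show φ (ψ (init x m)) = init z (φ (ψ (init x m))).length
    rw [h1.1 m]; exact h2.1 _
  · obtain ⟨k, hk⟩ := h2.2 n
    obtain ⟨m, hm⟩ := h1.2 k
    refine ⟨m, hk.trans ?_⟩
    show _ ≤ (φ (ψ (init x m))).length
    have h3 : init y k <+: ψ (init x m) := by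
      rw [h1.1 m]; exact init_prefix_iff_le hm
    exact (hφ.mono _ _ h3).length_le

lemma IsMachine.comp' {φ ψ : List ℕ → List ℕ} (hφ : IsMachine φ) (hψ : IsMachine ψ) :
    IsMachine (fun σ => φ (ψ σ)) :=
  ⟨hφ.comp.comp hψ.comp, fun _ _ h => hφ.mono _ _ (hψ.mono _ _ h)⟩

lemma isMachine_id : IsMachine (fun σ => σ) := ⟨Computable.id, fun _ _ h => h⟩

lemma maps_id (x : ℕ → ℕ) : Maps (fun σ => σ) x x :=
  ⟨fun m => by simp, fun n => ⟨n, by simp⟩⟩

/-- Word functions of the shape `range (ℓ σ) |>.map (e σ)`. -/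
lemma builder_mono {ℓ : List ℕ → ℕ} {e : List ℕ → ℕ → ℕ}
    (hℓ : ∀ a b, a <+: b → ℓ a ≤ ℓ b) (he : ∀ a b, a <+: b → ∀ i, i < ℓ a → e a i = e b i)
    (a b : List ℕ) (h : a <+: b) :
    (List.range (ℓ a)).map (e a) <+: (List.range (ℓ b)).map (e b) := by
  obtain ⟨k, hk⟩ := Nat.exists_eq_add_of_le (hℓ a b h)
  refine ⟨((List.range k).map (ℓ a + ·)).map (e b), ?_⟩
  rw [hk, List.range_add, List.map_append]
  congr 1
  apply List.map_congr_left
  intro i hi
  exact he a b h i (List.mem_range.1 hi)

lemma getD_of_isPrefix {a b : List ℕ} (h : a <+: b) (i d : ℕ) (hi : i < a.length) :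
    a.getD i d = b.getD i d := by
  obtain ⟨t, rfl⟩ := h
  simp [List.getD, List.getElem?_append_left hi]

/-- The word of even places. -/
def ev (σ : List ℕ) : List ℕ := (List.range ((σ.length + 1) / 2)).map (fun i => σ.getD (2 * i) 0)

/-- The word of odd places. -/
def od (σ : List ℕ) : List ℕ := (List.range (σ.length / 2)).map (fun i => σ.getD (2 * i + 1) 0)

/-- Interleaving of two words. -/
def pr (σ τ : List ℕ) : List ℕ :=
  (List.range (2 * min σ.length τ.length)).map
    (fun i => if i % 2 = 0 then σ.getD (i / 2) 0 else τ.getD (i / 2) 0)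

lemma isMachine_ev : IsMachine ev := by
  refine ⟨?_, ?_⟩
  · apply Primrec.to_comp
    refine Primrec.list_map (Primrec.list_range.comp ?_) ?_
    · exact Primrec.nat_div.comp (Primrec.succ.comp Primrec.list_length) (Primrec.const 2)
    · exact (Primrec.list_getD 0).comp Primrec.fst
        (Primrec.nat_mul.comp (Primrec.const 2) Primrec.snd)
  · intro a b h
    refine builder_mono (ℓ := fun σ => (σ.length + 1) / 2) (e := fun σ i => σ.getD (2 * i) 0)
      ?_ ?_ a b h
    · intro a b h; have := h.length_le; omega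
    · intro a b h i hi; exact getD_of_isPrefix h _ _ (by omega)

lemma isMachine_od : IsMachine od := by
  refine ⟨?_, ?_⟩
  · apply Primrec.to_comp
    refine Primrec.list_map (Primrec.list_range.comp ?_) ?_
    · exact Primrec.nat_div.comp Primrec.list_length (Primrec.const 2)
    · exact (Primrec.list_getD 0).comp Primrec.fst
        (Primrec.succ.comp (Primrec.nat_mul.comp (Primrec.const 2) Primrec.snd))
  · intro a b h
    refine builder_mono (ℓ := fun σ => σ.length / 2) (e := fun σ i => σ.getD (2 * i + 1) 0)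
      ?_ ?_ a b h
    · intro a b h; have := h.length_le; omega
    · intro a b h i hi; exact getD_of_isPrefix h _ _ (by omega)

lemma primrec_pr : Primrec₂ pr := by
  refine Primrec.list_map (Primrec.list_range.comp ?_) ?_
  · exact Primrec.nat_mul.comp (Primrec.const 2)
      (Primrec.nat_min.comp (Primrec.list_length.comp Primrec.fst)
        (Primrec.list_length.comp Primrec.snd))
  · refine Primrec.ite ?_ ?_ ?_
    · exact Primrec.eq.comp (Primrec.nat_mod.comp Primrec.snd (Primrec.const 2)) (Primrec.const 0)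
    · exact (Primrec.list_getD 0).comp (Primrec.fst.comp Primrec.fst)
        (Primrec.nat_div.comp Primrec.snd (Primrec.const 2))
    · exact (Primrec.list_getD 0).comp (Primrec.snd.comp Primrec.fst)
        (Primrec.nat_div.comp Primrec.snd (Primrec.const 2))

lemma pr_mono {a b c d : List ℕ} (h : a <+: b) (h' : c <+: d) : pr a c <+: pr b d := by
  have hab := h.length_le
  have hcd := h'.length_le
  have hle : 2 * min a.length c.length ≤ 2 * min b.length d.length := by omega
  obtain ⟨k, hk⟩ := Nat.exists_eq_add_of_le hle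
  refine ⟨((List.range k).map (2 * min a.length c.length + ·)).map
    (fun i => if i % 2 = 0 then b.getD (i / 2) 0 else d.getD (i / 2) 0), ?_⟩
  unfold pr
  rw [hk, List.range_add, List.map_append]
  congr 1
  apply List.map_congr_left
  intro i hi
  have hi' := List.mem_range.1 hi
  rw [getD_of_isPrefix h _ _ (by omega), getD_of_isPrefix h' _ _ (by omega)]

lemma IsMachine.pr {α β : List ℕ → List ℕ} (hα : IsMachine α) (hβ : IsMachine β) :
    IsMachine (fun σ => pr (α σ) (β σ)) :=
  ⟨primrec_pr.to_comp.comp hα.comp hβ.comp, fun a b h => pr_mono (hα.mono _ _ h) (hβ.mono _ _ h)⟩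

lemma init_congr {x : ℕ → ℕ} {m n : ℕ} (h : m = n) : init x m = init x n := by rw [h]

lemma maps_ev (x z : ℕ → ℕ) : Maps ev (pair x z) x := by
  refine ⟨fun m => ?_, fun n => ⟨2 * n, by simp [ev]; omega⟩⟩
  unfold ev init
  simp only [List.length_map, List.length_range]
  apply List.map_congr_left
  intro i hi
  have hi' := List.mem_range.1 hi
  have := init_getD (pair x z) m (2 * i) 0 (by omega)
  unfold init at this
  rw [this]; simp [pair]

lemma maps_od (x z : ℕ → ℕ) : Maps od (pair x z) z := by
  refine ⟨fun m => ?_, fun n => ⟨2 * n + 1, by simp [od]; omega⟩⟩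
  unfold od init
  simp only [List.length_map, List.length_range]
  apply List.map_congr_left
  intro i hi
  have hi' := List.mem_range.1 hi
  have := init_getD (pair x z) m (2 * i + 1) 0 (by omega)
  unfold init at this
  rw [this]; unfold pair
  rw [if_neg (by omega)]; congr 1; omega

lemma pr_init (a b : ℕ → ℕ) (m n : ℕ) : pr (init a m) (init b n) = init (pair a b) (2 * min m n) := by
  unfold pr
  simp only [length_init]
  unfold init
  apply List.map_congr_left
  intro i hi
  have hi' := List.mem_range.1 hi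
  have h1 := init_getD a m (i / 2) 0 (by omega)
  have h2 := init_getD b n (i / 2) 0 (by omega)
  unfold init at h1 h2
  rw [h1, h2]; rfl

lemma Maps.pr {α β : List ℕ → List ℕ} (hα : IsMachine α) (hβ : IsMachine β) {x a b : ℕ → ℕ}
    (h1 : Maps α x a) (h2 : Maps β x b) : Maps (fun σ => pr (α σ) (β σ)) x (pair a b) := by
  have key : ∀ m, Pool.Agent.H190R3.Wei.pr (α (init x m)) (β (init x m)) =
      init (pair a b) (2 * min (α (init x m)).length (β (init x m)).length) := by
    intro m
    conv_lhs => rw [h1.1 m, h2.1 m]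
    exact pr_init a b _ _
  refine ⟨fun m => ?_, fun n => ?_⟩
  · show Pool.Agent.H190R3.Wei.pr (α (init x m)) (β (init x m)) = _
    simp only [key m, length_init]
  · obtain ⟨m1, hm1⟩ := h1.2 n
    obtain ⟨m2, hm2⟩ := h2.2 n
    refine ⟨max m1 m2, ?_⟩
    show n ≤ (Pool.Agent.H190R3.Wei.pr (α (init x (max m1 m2))) (β (init x (max m1 m2)))).length
    rw [key]
    simp only [length_init]
    have e1 := (hα.mono _ _ (init_prefix_iff_le (x := x) (le_max_left m1 m2))).length_le
    have e2 := (hβ.mono _ _ (init_prefix_iff_le (x := x) (le_max_right m1 m2))).length_le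
    omega

lemma isMachine_cons (b : ℕ) {α : List ℕ → List ℕ} (hα : IsMachine α) :
    IsMachine (fun σ => b :: α σ) := by
  refine ⟨(Primrec.list_cons.to_comp).comp (Computable.const b) hα.comp, fun a c h => ?_⟩
  obtain ⟨t, ht⟩ := hα.mono _ _ h
  exact ⟨t, by simp [ht]⟩

lemma maps_cons (b : ℕ) {α : List ℕ → List ℕ} {x a : ℕ → ℕ} (h : Maps α x a) :
    Maps (fun σ => b :: α σ) x (tag b a) := by
  refine ⟨fun m => ?_, fun n => ?_⟩
  · simp only [List.length_cons]
    rw [init_tag, ← h.1 m]
  · obtain ⟨m, hm⟩ := h.2 n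
    exact ⟨m, by simp only [List.length_cons]; omega⟩

/-- Case distinction on the first letter of the odd part. -/
def sel (ψ : List ℕ → List ℕ) (σ : List ℕ) : List ℕ :=
  if (od σ).getD 0 1 = 0 then ψ (pr (ev σ) (od σ).tail) else (od σ).tail

lemma tail_mono {a b : List ℕ} (h : a <+: b) : a.tail <+: b.tail := by
  obtain ⟨t, rfl⟩ := h
  cases a with
  | nil => exact ⟨t.tail, by simp⟩
  | cons c a => exact ⟨t, by simp⟩

lemma isMachine_sel {ψ : List ℕ → List ℕ} (hψ : IsMachine ψ) : IsMachine (sel ψ) := by
  have htail : Computable (fun σ : List ℕ => (od σ).tail) :=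
    (Primrec.list_tail.to_comp).comp isMachine_od.comp
  refine ⟨?_, ?_⟩
  · have hc : Computable (fun σ : List ℕ => decide ((od σ).getD 0 1 = 0)) := by
      have h1 : Computable (fun σ : List ℕ => (od σ).getD 0 1) :=
        ((Primrec.list_getD 1).to_comp).comp isMachine_od.comp (Computable.const 0)
      exact (PrimrecPred.decide (Primrec.eq (α := ℕ)) |>.to_comp).comp (h1.pair (Computable.const 0))
    have h2 : Computable (fun σ : List ℕ => ψ (pr (ev σ) (od σ).tail)) :=
      hψ.comp.comp (primrec_pr.to_comp.comp isMachine_ev.comp htail)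
    refine (Computable.cond hc h2 htail).of_eq ?_
    intro σ
    unfold sel
    by_cases h : (od σ).getD 0 1 = 0 <;> simp [h]
  · intro a b h
    have ho := isMachine_od.mono _ _ h
    have he := isMachine_ev.mono _ _ h
    unfold sel
    cases ha : od a with
    | nil => simp
    | cons c l =>
      have hb : (od b).getD 0 1 = c := by
        rw [← getD_of_isPrefix ho 0 1 (by simp [ha]), ha]; simp
      rw [← ha]
      have ha' : (od a).getD 0 1 = c := by rw [ha]; simp
      rw [ha', hb]
      split_ifs with hc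
      · exact hψ.mono _ _ (pr_mono he (tail_mono ho))
      · exact tail_mono ho

lemma maps_sel_zero {ψ : List ℕ → List ℕ} (hψ : IsMachine ψ) {x y w : ℕ → ℕ}
    (h : Maps ψ (pair x y) w) : Maps (sel ψ) (pair x (tag 0 y)) w := by
  have hod := maps_od x (tag 0 y)
  have hev := maps_ev x (tag 0 y)
  -- the tail of the odd part
  have htl : Maps (fun σ => (od σ).tail) (pair x (tag 0 y)) y := by
    refine ⟨fun m => ?_, fun n => ?_⟩
    · show (od (init (pair x (tag 0 y)) m)).tail =
        init y (od (init (pair x (tag 0 y)) m)).tail.length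
      have h1 := hod.1 m
      cases hl : (od (init (pair x (tag 0 y)) m)).length with
      | zero =>
        have : od (init (pair x (tag 0 y)) m) = [] := List.eq_nil_of_length_eq_zero hl
        rw [this]; rfl
      | succ k => rw [hl] at h1; rw [h1, init_tag]; simp
    · obtain ⟨m, hm⟩ := hod.2 (n + 1)
      exact ⟨m, by simp only [List.length_tail]; omega⟩
  have htm : IsMachine (fun σ : List ℕ => (od σ).tail) :=
    ⟨(Primrec.list_tail.to_comp).comp isMachine_od.comp,
      fun a b h => tail_mono (isMachine_od.mono _ _ h)⟩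
  have hcomp : Maps (fun σ => ψ (pr (ev σ) (od σ).tail)) (pair x (tag 0 y)) w :=
    Maps.comp hψ (Maps.pr isMachine_ev htm hev htl) h
  refine ⟨fun m => ?_, fun n => ?_⟩
  · by_cases h0 : (od (init (pair x (tag 0 y)) m)).length = 0
    · have : od (init (pair x (tag 0 y)) m) = [] := List.eq_nil_of_length_eq_zero h0
      have h2 : sel ψ (init (pair x (tag 0 y)) m) = [] := by
        unfold sel; rw [this]; simp
      rw [h2]; rfl
    · have h1 : (od (init (pair x (tag 0 y)) m)).getD 0 1 = 0 := by
        rw [hod.1 m, init_getD _ _ _ _ (by omega)]; simp [tag]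
      unfold sel
      rw [if_pos h1]
      exact hcomp.1 m
  · obtain ⟨m1, hm1⟩ := hcomp.2 n
    obtain ⟨m2, hm2⟩ := hod.2 1
    refine ⟨max m1 m2, ?_⟩
    have e1 : 1 ≤ (od (init (pair x (tag 0 y)) (max m1 m2))).length :=
      hm2.trans (isMachine_od.mono _ _ (init_prefix_iff_le (le_max_right m1 m2))).length_le
    have h1 : (od (init (pair x (tag 0 y)) (max m1 m2))).getD 0 1 = 0 := by
      rw [hod.1, init_getD _ _ _ _ (by omega)]; simp [tag]
    unfold sel
    rw [if_pos h1]
    have hM : IsMachine (fun σ => ψ (pr (ev σ) (od σ).tail)) :=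
      hψ.comp' (IsMachine.pr isMachine_ev htm)
    exact hm1.trans (hM.mono _ _ (init_prefix_iff_le (le_max_left m1 m2))).length_le

lemma maps_sel_one {ψ : List ℕ → List ℕ} {x y : ℕ → ℕ} : Maps (sel ψ) (pair x (tag 1 y)) y := by
  have hod := maps_od x (tag 1 y)
  have hval : ∀ m, sel ψ (init (pair x (tag 1 y)) m) = (od (init (pair x (tag 1 y)) m)).tail := by
    intro m
    by_cases h0 : (od (init (pair x (tag 1 y)) m)).length = 0
    · have : od (init (pair x (tag 1 y)) m) = [] := List.eq_nil_of_length_eq_zero h0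
      simp [sel, this]
    · have h1 : (od (init (pair x (tag 1 y)) m)).getD 0 1 = 1 := by
        rw [hod.1 m, init_getD _ _ _ _ (by omega)]; simp [tag]
      unfold sel
      rw [if_neg (by rw [h1]; omega)]
  refine ⟨fun m => ?_, fun n => ?_⟩
  · rw [hval m]
    have h1 := hod.1 m
    cases hl : (od (init (pair x (tag 1 y)) m)).length with
    | zero =>
      have : od (init (pair x (tag 1 y)) m) = [] := List.eq_nil_of_length_eq_zero hl
      rw [this]; rfl
    | succ k => rw [hl] at h1; rw [h1, init_tag]; simp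
  · obtain ⟨m, hm⟩ := hod.2 (n + 1)
    refine ⟨m, ?_⟩
    rw [hval m, List.length_tail]; omega

end Pool.Agent.H190R3.Wei
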