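import Pool.Agent.H190R3.WeiRed

/-! A family of continuum many points none of which computes another one, and the embedding of the
power set of Baire space into the Weihrauch preorder. -/

namespace Pool.Agent.H190R3.Wei

open Set Cardinal

/-- `x` extends the word `σ`. -/
def Ext (σ : List ℕ) (x : ℕ → ℕ) : Prop := σ = init x σ.length

lemma init_take (x : ℕ → ℕ) {m n : ℕ} (h : m ≤ n) : (init x n).take m = init x m := by
  obtain ⟨t, ht⟩ := init_prefix_iff_le (x := x) h
  rw [← ht, List.take_append_of_le_length (by simp), List.take_of_length_le (by simp)]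

lemma Ext.anti {σ τ : List ℕ} {x : ℕ → ℕ} (h : σ <+: τ) (hx : Ext τ x) : Ext σ x := by
  unfold Ext at hx ⊢
  obtain ⟨t, ht⟩ := h
  have h1 : τ.take σ.length = σ := by rw [← ht]; simp
  have h2 : σ.length ≤ τ.length := by rw [← ht]; simp
  rw [hx, init_take x h2] at h1
  exact h1.symm

lemma Ext.getD {σ : List ℕ} {x : ℕ → ℕ} (h : Ext σ x) {i d : ℕ} (hi : i < σ.length) :
    σ.getD i d = x i := by
  unfold Ext at h; rw [h]; exact init_getD x _ i d hi

lemma Ext.isPrefix {σ : List ℕ} {x : ℕ → ℕ} (h : Ext σ x) {m : ℕ} (hm : σ.length ≤ m) :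
    σ <+: init x m := by
  unfold Ext at h; rw [h]; exact init_prefix_iff_le hm

/-- A monotone word function. -/
def Mono (χ : List ℕ → List ℕ) : Prop := ∀ a b, a <+: b → χ a <+: χ b

lemma step {χ : List ℕ → List ℕ} (hχ : Mono χ) (σ σ' : List ℕ) :
    ∃ τ τ', σ <+: τ ∧ σ' <+: τ' ∧ ∀ x y, Ext τ x → Ext τ' y → ¬ Maps χ x y := by
  by_cases h : ∃ τ, σ <+: τ ∧ σ'.length < (χ τ).length
  · obtain ⟨τ, hτ, hlen⟩ := h
    refine ⟨τ, σ' ++ [(χ τ).getD σ'.length 0 + 1], hτ, List.prefix_append _ _, ?_⟩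
    intro x y hx hy hM
    have h1 := hM.1 τ.length
    have h2 : init x τ.length = τ := hx.symm
    rw [h2] at h1
    have h3 : (χ τ).getD σ'.length 0 = y σ'.length := by
      rw [h1]; exact init_getD y _ _ 0 hlen
    have h4 := hy.getD (i := σ'.length) (d := 0) (by simp)
    simp [List.getD] at h4 h3
    omega
  · push Not at h
    refine ⟨σ, σ', List.prefix_rfl, List.prefix_rfl, ?_⟩
    intro x y hx _ hM
    obtain ⟨m, hm⟩ := hM.2 (σ'.length + 1)
    have h1 := h (init x (max m σ.length)) (hx.isPrefix (le_max_right _ _))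
    have h2 := (hχ _ _ (init_prefix_iff_le (x := x) (le_max_left m σ.length))).length_le
    omega

lemma finite_step {χ : ℕ → List ℕ → List ℕ} (hχ : ∀ k, Mono (χ k)) {ι : Type}
    (Q : List (ι × ι × ℕ)) (hQ : ∀ q ∈ Q, q.1 ≠ q.2.1) (τ : ι → List ℕ) :
    ∃ τ' : ι → List ℕ, (∀ i, τ i <+: τ' i) ∧ ∀ q ∈ Q, ∀ x y, Ext (τ' q.1) x → Ext (τ' q.2.1) y →
      ¬ Maps (χ q.2.2) x y := by
  classical
  induction Q with
  | nil => exact ⟨τ, fun i => List.prefix_rfl, by simp⟩
  | cons q Q ih =>
    obtain ⟨τ', h1, h2⟩ := ih (fun q hq => hQ q (List.mem_cons_of_mem _ hq))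
    have hne : q.1 ≠ q.2.1 := hQ q List.mem_cons_self
    obtain ⟨ρ, ρ', h3, h4, h5⟩ := step (hχ q.2.2) (τ' q.1) (τ' q.2.1)
    let τ'' : ι → List ℕ := fun i => if i = q.1 then ρ else if i = q.2.1 then ρ' else τ' i
    have e1 : τ'' q.1 = ρ := by simp [τ'']
    have e2 : τ'' q.2.1 = ρ' := by simp [τ'', hne.symm]
    have hext : ∀ i, τ' i <+: τ'' i := by
      intro i
      by_cases hi : i = q.1
      · rw [hi, e1]; exact h3
      · by_cases hi' : i = q.2.1
        · rw [hi', e2]; exact h4
        · have : τ'' i = τ' i := by simp [τ'', hi, hi']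
          rw [this]
    refine ⟨τ'', fun i => (h1 i).trans (hext i), ?_⟩
    intro q' hq' x y hx hy
    rcases List.mem_cons.1 hq' with rfl | hq'
    · rw [e1] at hx; rw [e2] at hy
      exact h5 x y hx hy
    · exact h2 q' hq' x y (hx.anti (hext _)) (hy.anti (hext _))

lemma level_step {χ : ℕ → List ℕ → List ℕ} (hχ : ∀ k, Mono (χ k)) (n : ℕ)
    (τ : List Bool → List ℕ) :
    ∃ τ' : List Bool → List ℕ, (∀ s, τ s <+: τ' s) ∧ ∀ s s' : List Bool, ∀ k ≤ n,
      s.length = n → s'.length = n → s ≠ s' → ∀ x y, Ext (τ' s) x → Ext (τ' s') y →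
      ¬ Maps (χ k) x y := by
  classical
  let L : Finset (List Bool) := (List.finite_length_eq Bool n).toFinset
  let Q : List (List Bool × List Bool × ℕ) :=
    ((L ×ˢ L ×ˢ Finset.range (n + 1)).filter (fun q => q.1 ≠ q.2.1)).toList
  obtain ⟨τ', h1, h2⟩ := finite_step hχ Q (by
    intro q hq
    have := (Finset.mem_toList.1 hq)
    exact (Finset.mem_filter.1 this).2) τ
  refine ⟨τ', h1, fun s s' k hk hs hs' hne x y hx hy => ?_⟩
  refine h2 (s, s', k) ?_ x y hx hy
  rw [Finset.mem_toList, Finset.mem_filter]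
  refine ⟨?_, hne⟩
  simp only [Finset.mem_product, Finset.mem_range]
  exact ⟨(List.finite_length_eq Bool n).mem_toFinset.2 hs,
    (List.finite_length_eq Bool n).mem_toFinset.2 hs', by omega⟩

/-- The first `n` values of `a`, listed backwards. -/
def path (a : ℕ → Bool) : ℕ → List Bool
  | 0 => []
  | n + 1 => a n :: path a n

lemma length_path (a : ℕ → Bool) (n : ℕ) : (path a n).length = n := by
  induction n with
  | zero => rfl
  | succ n ih => simp [path, ih]

lemma path_ne {a b : ℕ → Bool} (h : a ≠ b) : ∃ n0, ∀ n, n0 ≤ n → path a n ≠ path b n := by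
  obtain ⟨i, hi⟩ := Function.ne_iff.1 h
  refine ⟨i + 1, fun n hn => ?_⟩
  induction n, hn using Nat.le_induction with
  | base => simp [path, hi]
  | succ n _ ih =>
    intro heq
    simp only [path, List.cons.injEq] at heq
    exact ih heq.2

/-- A large family of points none of which is mapped to another one. -/
lemma exists_antichain {χ : ℕ → List ℕ → List ℕ} (hχ : ∀ k, Mono (χ k)) :
    ∃ t : (ℕ → Bool) → (ℕ → ℕ), ∀ a b, a ≠ b → ∀ k, ¬ Maps (χ k) (t a) (t b) := by
  classical
  choose F hF1 hF2 using fun n τ => level_step hχ n τ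
  let T : ℕ → List Bool → List ℕ := fun n => Nat.rec (fun _ => [])
    (fun n Tn => F (n + 1) (fun s => Tn s.tail ++ [0])) n
  have hT : ∀ n, T (n + 1) = F (n + 1) (fun s => T n s.tail ++ [0]) := fun n => rfl
  have hstep : ∀ a n, T n (path a n) ++ [0] <+: T (n + 1) (path a (n + 1)) := by
    intro a n
    have := hF1 (n + 1) (fun s => T n s.tail ++ [0]) (path a (n + 1))
    rw [← hT n] at this
    simpa [path] using this
  have hmono : ∀ a m n, m ≤ n → T m (path a m) <+: T n (path a n) := by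
    intro a m n hmn
    induction n, hmn using Nat.le_induction with
    | base => exact List.prefix_rfl
    | succ n _ ih => exact ih.trans ((List.prefix_append _ _).trans (hstep a n))
  have hlen : ∀ a n, n ≤ (T n (path a n)).length := by
    intro a n
    induction n with
    | zero => exact Nat.zero_le _
    | succ n ih =>
      have := (hstep a n).length_le
      simp only [List.length_append, List.length_singleton] at this
      omega
  let t : (ℕ → Bool) → (ℕ → ℕ) := fun a i => (T (i + 1) (path a (i + 1))).getD i 0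
  have hext : ∀ a n, Ext (T n (path a n)) (t a) := by
    intro a n
    unfold Ext
    apply List.ext_getElem
    · simp
    · intro i h1 h2
      have h3 : (T n (path a n)).getD i 0 = t a i := by
        rcases le_total n (i + 1) with h | h
        · exact getD_of_isPrefix (hmono a n (i + 1) h) i 0 h1
        · exact (getD_of_isPrefix (hmono a (i + 1) n h) i 0 (hlen a (i + 1))).symm
      have h4 := init_getD (t a) (T n (path a n)).length i 0 h1
      rw [List.getD_eq_getElem _ _ h1] at h3
      rw [List.getD_eq_getElem _ _ (by simpa using h1)] at h4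
      rw [h3, h4]
  refine ⟨t, fun a b hab k => ?_⟩
  obtain ⟨n0, hn0⟩ := path_ne hab
  let n := max n0 k
  have hT' := hF2 (n + 1) (fun s => T n s.tail ++ [0]) (path a (n + 1)) (path b (n + 1)) k
    (by have := le_max_right n0 k; omega) (length_path a _) (length_path b _)
    (hn0 _ (by have := le_max_left n0 k; omega)) (t a) (t b)
  rw [← hT n] at hT'
  exact hT' (hext a (n + 1)) (hext b (n + 1))

/-- The constant zero instance. -/
def zeroPt : ℕ → ℕ := fun _ => 0

lemma maps_of_zero {ψ : List ℕ → List ℕ} (hψ : IsMachine ψ) {x y : ℕ → ℕ}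
    (h : Maps ψ (pair zeroPt x) y) :
    Maps (fun σ => ψ (pr (List.replicate σ.length 0) σ)) x y := by
  have key : ∀ m, ψ (pr (List.replicate (init x m).length 0) (init x m)) =
      ψ (init (pair zeroPt x) (2 * m)) := by
    intro m
    have h0 : List.replicate (init x m).length 0 = init zeroPt m := by
      simp only [length_init]
      unfold init zeroPt
      simp [List.map_const']
    rw [h0, pr_init, min_self]
  refine ⟨fun m => ?_, fun n => ?_⟩
  · show ψ (pr (List.replicate (init x m).length 0) (init x m)) = _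
    simp only [key m]
    exact h.1 _
  · obtain ⟨m, hm⟩ := h.2 n
    refine ⟨m, ?_⟩
    show n ≤ (ψ (pr (List.replicate (init x m).length 0) (init x m))).length
    rw [key m]
    exact hm.trans (hψ.mono _ _ (init_prefix_iff_le (by omega))).length_le

/-- Continuum many points, none of which computes another one. -/
lemma exists_incomparable : ∃ t : Option (ℕ → ℕ) → (ℕ → ℕ), ∀ a b, a ≠ b → ∀ ψ, IsMachine ψ →
    ¬ Maps ψ (pair zeroPt (t a)) (t b) := by
  obtain ⟨e, he⟩ := exists_surjective_nat {φ : List ℕ → List ℕ // IsMachine φ}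
  let χ : ℕ → List ℕ → List ℕ := fun k σ => (e k).1 (pr (List.replicate σ.length 0) σ)
  have hχ : ∀ k, Mono (χ k) := by
    intro k a b hab
    refine (e k).2.mono _ _ (pr_mono ?_ hab)
    obtain ⟨j, hj⟩ := Nat.exists_eq_add_of_le hab.length_le
    exact ⟨List.replicate j 0, by rw [hj, List.replicate_add]⟩
  obtain ⟨t, ht⟩ := exists_antichain hχ
  have hcard : #(Option (ℕ → ℕ)) = #(ℕ → Bool) := by
    rw [Cardinal.mk_option, ← Cardinal.power_def, ← Cardinal.power_def, Cardinal.mk_nat,
      Cardinal.aleph0_power_aleph0]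
    rw [Cardinal.add_eq_left Cardinal.aleph0_le_continuum
      (Cardinal.one_le_aleph0.trans Cardinal.aleph0_le_continuum)]
    simp
  obtain ⟨q⟩ := Cardinal.eq.1 hcard
  refine ⟨fun a => t (q a), fun a b hab ψ hψ hM => ?_⟩
  obtain ⟨k, hk⟩ := he ⟨ψ, hψ⟩
  refine ht (q a) (q b) (q.injective.ne hab) k ?_
  have := maps_of_zero hψ hM
  have hk' : (e k).1 = ψ := by rw [hk]
  simp only [χ, hk']
  exact this

/-- The power set of Baire space embeds into the Weihrauch preorder. -/
theorem powerset_embeds : ∃ F : Set (ℕ → ℕ) → Problem, ∀ A B, F A ≤ F B ↔ A ⊆ B := by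
  classical
  obtain ⟨t, ht⟩ := exists_incomparable
  let F : Set (ℕ → ℕ) → Problem := fun A =>
    ⟨fun x => {z | x = zeroPt ∧ (z = t none ∨ ∃ a, a ∉ A ∧ z = t (some a))}⟩
  have hne : ∀ A, ((F A).sol zeroPt).Nonempty := fun A => ⟨t none, rfl, Or.inl rfl⟩
  refine ⟨F, fun A B => ⟨?_, ?_⟩⟩
  · rintro ⟨φ, ψ, hφ, hψ, r⟩ a ha
    by_contra hb
    obtain ⟨y, -, ⟨z, hy, -⟩, hr⟩ := r zeroPt (hne A)
    obtain ⟨w, ⟨-, hw⟩, hM⟩ := hr (t (some a)) ⟨hy, Or.inr ⟨a, hb, rfl⟩⟩
    rcases hw with rfl | ⟨b, hbA, rfl⟩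
    · exact ht (some a) none (by simp) ψ hψ hM
    · refine ht (some a) (some b) ?_ ψ hψ hM
      intro h
      rw [Option.some.injEq] at h
      exact hbA (h ▸ ha)
  · intro hAB
    refine ⟨fun σ => σ, od, isMachine_id, isMachine_od, ?_⟩
    rintro x ⟨z, rfl, -⟩
    refine ⟨zeroPt, maps_id _, hne B, ?_⟩
    rintro z ⟨-, hz⟩
    refine ⟨z, ⟨rfl, ?_⟩, maps_od _ _⟩
    rcases hz with rfl | ⟨b, hb, rfl⟩
    · exact Or.inl rfl
    · exact Or.inr ⟨b, fun h => hb (hAB h), rfl⟩

end Pool.Agent.H190R3.Wei
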