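import Pool.Agent.H190R3.WeiRed

/-! Sizes of chains of Weihrauch degrees. -/

namespace Pool.Agent.H190R3.Wei

open Set Cardinal

/-- The Weihrauch degrees. -/
abbrev Degree := Antisymmetrization Problem (· ≤ ·)

lemma mk_baire : #(ℕ → ℕ) = 𝔠 := by
  rw [← Cardinal.power_def, Cardinal.mk_nat, Cardinal.aleph0_power_aleph0]

lemma mk_Data : #Data = 𝔠 := by
  have h1 : #(Option (ℕ → ℕ)) = 𝔠 := by
    rw [Cardinal.mk_option, mk_baire]
    exact Cardinal.add_eq_left Cardinal.aleph0_le_continuum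
      (Cardinal.one_le_aleph0.trans Cardinal.aleph0_le_continuum)
  have h2 : #((ℕ → ℕ) × Option (ℕ → ℕ)) = 𝔠 := by
    rw [Cardinal.mk_prod, h1, mk_baire]; simp
  have h3 : #(Option ((ℕ → ℕ) × Option (ℕ → ℕ))) = 𝔠 := by
    rw [Cardinal.mk_option, h2]
    exact Cardinal.add_eq_left Cardinal.aleph0_le_continuum
      (Cardinal.one_le_aleph0.trans Cardinal.aleph0_le_continuum)
  show #(ℕ → Option ((ℕ → ℕ) × Option (ℕ → ℕ))) = 𝔠
  rw [← Cardinal.power_def, h3, Cardinal.mk_nat, Cardinal.continuum_power_aleph0]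

/-- Every lower cone of the Weihrauch degrees embeds into `(𝒫(ω^ω), ⊆)`. -/
theorem degree_cone_embeds (d : Degree) :
    ∃ E : Degree → Set (ℕ → ℕ), (∀ a b : Degree, a ≤ b → E a ⊆ E b) ∧
      ∀ a b : Degree, a ≤ d → E b ⊆ E a → b ≤ a := by
  obtain ⟨E, hE1, hE2⟩ := lower_cone_embeds (ofAntisymmetrization (· ≤ ·) d)
  obtain ⟨q⟩ : Nonempty (Data ≃ (ℕ → ℕ)) := by
    rw [← Cardinal.eq, mk_Data, mk_baire]
  refine ⟨fun a => q '' E (ofAntisymmetrization (· ≤ ·) a), fun a b hab => ?_, fun a b had hab => ?_⟩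
  · exact image_mono (hE1 _ _ (ofAntisymmetrization_le_ofAntisymmetrization_iff.2 hab))
  · rw [image_subset_image_iff q.injective] at hab
    exact ofAntisymmetrization_le_ofAntisymmetrization_iff.1
      (hE2 _ _ (ofAntisymmetrization_le_ofAntisymmetrization_iff.2 had) hab)

/-- There is a chain of size `κ` in `(𝒫(ω^ω), ⊆)`. -/
def PowersetChain (κ : Cardinal.{0}) : Prop :=
  ∃ S : Set (Set (ℕ → ℕ)), IsChain (· ⊆ ·) S ∧ #S = κ

/-- There is a chain of size `κ` of Weihrauch degrees. -/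
def DegreeChain (κ : Cardinal.{0}) : Prop :=
  ∃ C : Set Degree, IsChain (· ≤ ·) C ∧ #C = κ

lemma mk_bounded_lt {κ : Cardinal.{0}} (hκ : ¬ PowersetChain κ) {C : Set Degree}
    (hC : IsChain (· ≤ ·) C) (hCκ : #C = κ) (d : Degree) : #(C ∩ Iic d : Set Degree) < κ := by
  have hle : #(C ∩ Iic d : Set Degree) ≤ κ := hCκ ▸ Cardinal.mk_le_mk_of_subset inter_subset_left
  refine lt_of_le_of_ne hle fun heq => hκ ?_
  obtain ⟨E, hE1, hE2⟩ := degree_cone_embeds d
  refine ⟨E '' (C ∩ Iic d), ?_, ?_⟩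
  · rintro _ ⟨a, ha, rfl⟩ _ ⟨b, hb, rfl⟩ -
    rcases hC.total ha.1 hb.1 with h | h
    · exact Or.inl (hE1 _ _ h)
    · exact Or.inr (hE1 _ _ h)
  · rw [Cardinal.mk_image_eq_of_injOn, heq]
    intro a ha b hb hab
    exact le_antisymm (hE2 b a hb.2 hab.le) (hE2 a b ha.2 hab.ge)

theorem powersetChain_of_degreeChain {κ : Cardinal.{0}} (hcof : Order.succ 𝔠 < κ.ord.cof)
    (h : DegreeChain κ) : PowersetChain κ := by
  classical
  by_contra hκ
  obtain ⟨C, hC, hCκ⟩ := h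
  have hcofle : κ.ord.cof ≤ κ := Ordinal.cof_ord_le κ
  have hsucc : Order.succ 𝔠 < κ := hcof.trans_le hcofle
  have hinf : ℵ₀ ≤ κ := (Cardinal.aleph0_le_continuum.trans (Order.le_succ 𝔠)).trans hsucc.le
  -- small subsets of the chain are strictly bounded
  have hub : ∀ A : Set Degree, A ⊆ C → #A ≤ Order.succ 𝔠 → ∃ d ∈ C, ∀ a ∈ A, a < d := by
    intro A hAC hA
    by_contra hcon
    push Not at hcon
    have hcover : C ⊆ ⋃ a : A, (C ∩ Iic (a : Degree)) := by
      intro d hd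
      obtain ⟨a, ha, had⟩ := hcon d hd
      refine mem_iUnion.2 ⟨⟨a, ha⟩, hd, ?_⟩
      rcases hC.total (hAC ha) hd with h | h
      · exact (lt_or_eq_of_le h).elim (fun h => (had h).elim) (fun h => h.symm.le)
      · exact h
    have h1 : #C ≤ #A * ⨆ a : A, #(C ∩ Iic (a : Degree) : Set Degree) :=
      (Cardinal.mk_le_mk_of_subset hcover).trans (Cardinal.mk_iUnion_le _)
    have h2 : (⨆ a : A, #(C ∩ Iic (a : Degree) : Set Degree)) < κ :=
      Cardinal.iSup_lt_of_lt_cof_ord (hA.trans_lt hcof) fun a => mk_bounded_lt hκ hC hCκ _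
    have h3 : #A * (⨆ a : A, #(C ∩ Iic (a : Degree) : Set Degree)) < κ :=
      Cardinal.mul_lt_of_lt hinf (hA.trans_lt hsucc) h2
    exact absurd (h1.trans_lt h3) (by rw [hCκ]; exact lt_irrefl _)
  have : Nonempty Degree := ⟨toAntisymmetrization (· ≤ ·) ⟨fun _ => ∅⟩⟩
  choose! ub hubC hublt using hub
  let T := (Order.succ 𝔠).ord.ToType
  have hT : #T = Order.succ 𝔠 := by simp [T]
  let g : T → Degree := WellFoundedLT.fix (fun t ih => ub {ub {d | ∃ s, ∃ h : s < t, d = ih s h}})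
  have hg : ∀ t, g t = ub {ub {d | ∃ s, s < t ∧ d = g s}} := by
    intro t
    have := WellFoundedLT.fix_eq
      (fun (t : T) (ih : ∀ s, s < t → Degree) => ub {ub {d | ∃ s, ∃ h : s < t, d = ih s h}}) t
    simp only [exists_prop] at this
    exact this
  have hsmall : ∀ t : T, #({d | ∃ s, s < t ∧ d = g s} : Set Degree) ≤ Order.succ 𝔠 := by
    intro t
    have : ({d | ∃ s, s < t ∧ d = g s} : Set Degree) ⊆ range g := by
      rintro _ ⟨s, -, rfl⟩; exact ⟨s, rfl⟩
    exact (Cardinal.mk_le_mk_of_subset this).trans (Cardinal.mk_range_le.trans hT.le)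
  have hone : ∀ d : Degree, #({d} : Set Degree) ≤ Order.succ 𝔠 := by
    intro d
    rw [Cardinal.mk_singleton]
    exact (Cardinal.one_le_aleph0.trans Cardinal.aleph0_le_continuum).trans (Order.le_succ 𝔠)
  have hgC : ∀ t, g t ∈ C := by
    intro t
    induction t using WellFoundedLT.induction with
    | ind t ih =>
      rw [hg t]
      have hA : ({d | ∃ s, s < t ∧ d = g s} : Set Degree) ⊆ C := by
        rintro _ ⟨s, hs, rfl⟩; exact ih s hs
      exact hubC _ (singleton_subset_iff.2 (hubC _ hA (hsmall t))) (hone _)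
  have hAC : ∀ t : T, ({d | ∃ s, s < t ∧ d = g s} : Set Degree) ⊆ C := by
    rintro t _ ⟨s, -, rfl⟩; exact hgC s
  -- intermediate points
  let h : T → Degree := fun t => ub {d | ∃ s, s < t ∧ d = g s}
  have hhC : ∀ t, h t ∈ C := fun t => hubC _ (hAC t) (hsmall t)
  have hhg : ∀ t, h t < g t := by
    intro t
    rw [hg t]
    exact hublt _ (singleton_subset_iff.2 (hhC t)) (hone _) _ rfl
  have hgh : ∀ s t, s < t → g s < h t := fun s t hst =>
    hublt _ (hAC t) (hsmall t) _ ⟨s, hst, rfl⟩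
  obtain ⟨d, -, hd⟩ : ∃ d ∈ C, ∀ a ∈ range g, a < d := by
    have h1 : #(range g) ≤ Order.succ 𝔠 := Cardinal.mk_range_le.trans hT.le
    have h2 : range g ⊆ C := by rintro _ ⟨t, rfl⟩; exact hgC t
    exact ⟨ub (range g), hubC _ h2 h1, hublt _ h2 h1⟩
  obtain ⟨E, hE1, hE2⟩ := degree_cone_embeds d
  have hw : ∀ t, ∃ w, w ∈ E (g t) ∧ w ∉ E (h t) := by
    intro t
    by_contra hcon
    push Not at hcon
    have := hE2 (h t) (g t) ((hhg t).le.trans (hd _ ⟨t, rfl⟩).le) hcon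
    exact absurd (hhg t) (not_lt_of_ge this)
  choose w hw1 hw2 using hw
  have hinj : Function.Injective w := by
    intro s t hst
    rcases lt_trichotomy s t with hlt | heq | hlt
    · exact absurd (hst ▸ hE1 _ _ (hgh s t hlt).le (hw1 s)) (hw2 t)
    · exact heq
    · exact absurd (hst ▸ hE1 _ _ (hgh t s hlt).le (hw1 t)) (hw2 s)
  have hle : #T ≤ #(ℕ → ℕ) := Cardinal.mk_le_of_injective hinj
  rw [hT] at hle
  rw [mk_baire] at hle
  exact absurd (Order.lt_succ 𝔠) (not_lt_of_ge hle)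

end Pool.Agent.H190R3.Wei
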