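import Pool.Agent.H190R3.WeiWords

/-! Weihrauch reducibility: it is a preorder, and every lower cone embeds in a power set of a set
of size continuum. -/

namespace Pool.Agent.H190R3.Wei

open Set Cardinal

/-- A problem: a multi-valued function on Baire space, given by the sets `sol x` of solutions.
Its domain consists of the points `x` with at least one solution. -/
@[ext] structure Problem where
  /-- the set of solutions -/
  sol : (ℕ → ℕ) → Set (ℕ → ℕ)

/-- The two machines `φ, ψ` witness that `f` is Weihrauch reducible to `g`. -/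
def Red (φ ψ : List ℕ → List ℕ) (f g : Problem) : Prop :=
  ∀ x, (f.sol x).Nonempty → ∃ y, Maps φ x y ∧ (g.sol y).Nonempty ∧
    ∀ z ∈ g.sol y, ∃ w ∈ f.sol x, Maps ψ (pair x z) w

/-- Weihrauch reducibility. -/
def WLe (f g : Problem) : Prop := ∃ φ ψ, IsMachine φ ∧ IsMachine ψ ∧ Red φ ψ f g

lemma WLe.refl (f : Problem) : WLe f f :=
  ⟨fun σ => σ, od, isMachine_id, isMachine_od, fun x hx => ⟨x, maps_id x, hx, fun z hz =>
    ⟨z, hz, maps_od x z⟩⟩⟩

lemma WLe.trans {f g h : Problem} (h1 : WLe f g) (h2 : WLe g h) : WLe f h := by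
  obtain ⟨φ1, ψ1, hφ1, hψ1, r1⟩ := h1
  obtain ⟨φ2, ψ2, hφ2, hψ2, r2⟩ := h2
  have m1 : IsMachine (fun σ => φ1 (ev σ)) := hφ1.comp' isMachine_ev
  have m2 : IsMachine (fun σ => pr (φ1 (ev σ)) (od σ)) := m1.pr isMachine_od
  have m3 : IsMachine (fun σ => ψ2 (pr (φ1 (ev σ)) (od σ))) := hψ2.comp' m2
  refine ⟨fun σ => φ2 (φ1 σ), fun σ => ψ1 (pr (ev σ) (ψ2 (pr (φ1 (ev σ)) (od σ)))),
    hφ2.comp' hφ1, hψ1.comp' (isMachine_ev.pr m3), ?_⟩
  intro x hx
  obtain ⟨y, hy, hgy, r⟩ := r1 x hx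
  obtain ⟨z, hz, hhz, r'⟩ := r2 y hgy
  refine ⟨z, Maps.comp hφ2 hy hz, hhz, fun t ht => ?_⟩
  obtain ⟨v, hv, hv'⟩ := r' t ht
  obtain ⟨w, hw, hw'⟩ := r v hv
  refine ⟨w, hw, Maps.comp hψ1 ?_ hw'⟩
  refine Maps.pr isMachine_ev m3 (maps_ev x t) ?_
  refine Maps.comp hψ2 ?_ hv'
  exact Maps.pr m1 isMachine_od (Maps.comp hφ1 (maps_ev x t) hy) (maps_od x t)

instance : Preorder Problem where
  le := WLe
  le_refl := WLe.refl
  le_trans _ _ _ := WLe.trans

lemma le_def {f g : Problem} : f ≤ g ↔ WLe f g := Iff.rfl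

/-- The type of countable lists of answers used to separate problems: the entry `some (p, none)`
says that `p` is not in the domain, the entry `some (p, some y)` that `y` is a solution at `p`. -/
abbrev Data := ℕ → Option ((ℕ → ℕ) × Option (ℕ → ℕ))

/-- `w` lists true facts about `f`. -/
def Compat (w : Data) (f : Problem) : Prop :=
  ∀ k, (∀ p, w k = some (p, none) → f.sol p = ∅) ∧ ∀ p y, w k = some (p, some y) → y ∈ f.sol p

/-- The problem which knows only the facts listed by `w` about an unknown problem, and otherwise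
gives the answers of the single-valued function `s` with domain `D`. -/
noncomputable def sepProblem (D : Set (ℕ → ℕ)) (s : (ℕ → ℕ) → (ℕ → ℕ)) (w : Data) : Problem where
  sol z := {t | ∃ p q, z = pair p q ∧ (∀ k, w k ≠ some (p, none)) ∧
    ((∃ k y, w k = some (p, some y) ∧ t = tag 1 y) ∨
      ((∀ k y, w k ≠ some (p, some y)) ∧ q ∈ D ∧ t = tag 0 (s q)))}

lemma pair_inj {p q p' q' : ℕ → ℕ} (h : pair p q = pair p' q') : p = p' ∧ q = q' :=
  ⟨Maps.unique (h ▸ maps_ev p q : Maps ev (pair p' q') p) (maps_ev p' q'),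
    Maps.unique (h ▸ maps_od p q : Maps od (pair p' q') q) (maps_od p' q')⟩

/-- Upper half: a problem below `u` is below each compatible separating problem. -/
lemma le_sepProblem {f u : Problem} {D : Set (ℕ → ℕ)} {s : (ℕ → ℕ) → (ℕ → ℕ)}
    (hD : ∀ q, (u.sol q).Nonempty → q ∈ D ∧ s q ∈ u.sol q) (hfu : f ≤ u) {w : Data}
    (hw : Compat w f) : f ≤ sepProblem D s w := by
  obtain ⟨φ, ψ, hφ, hψ, r⟩ := hfu
  refine ⟨fun σ => pr σ (φ σ), sel ψ, isMachine_id.pr hφ, isMachine_sel hψ, ?_⟩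
  intro p hp
  obtain ⟨q, hq, huq, hr⟩ := r p hp
  obtain ⟨hqD, hsq⟩ := hD q huq
  have hnone : ∀ k, w k ≠ some (p, none) := fun k hk => by
    have := (hw k).1 p hk
    exact hp.ne_empty this
  refine ⟨pair p q, Maps.pr isMachine_id hφ (maps_id p) hq, ?_, ?_⟩
  · by_cases h : ∃ k y, w k = some (p, some y)
    · obtain ⟨k, y, hk⟩ := h
      exact ⟨tag 1 y, p, q, rfl, hnone, Or.inl ⟨k, y, hk, rfl⟩⟩
    · push Not at h
      exact ⟨tag 0 (s q), p, q, rfl, hnone, Or.inr ⟨h, hqD, rfl⟩⟩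
  · rintro t ⟨p', q', hpq, -, ht⟩
    obtain ⟨rfl, rfl⟩ := pair_inj hpq
    rcases ht with ⟨k, y, hk, rfl⟩ | ⟨-, -, rfl⟩
    · exact ⟨y, (hw k).2 p y hk, maps_sel_one⟩
    · obtain ⟨v, hv, hv'⟩ := hr (s q) hsq
      exact ⟨v, hv, maps_sel_zero hψ hv'⟩

instance countable_machines : Countable {φ : List ℕ → List ℕ // IsMachine φ} := by
  let enc : {φ : List ℕ → List ℕ // IsMachine φ} → {f : ℕ → ℕ // Computable f} := fun φ =>
    ⟨fun n => Encodable.encode (φ.1 (Denumerable.ofNat (List ℕ) n)),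
      Computable.encode.comp (φ.2.comp.comp (Computable.ofNat (List ℕ)))⟩
  have hinj : Function.Injective enc := by
    intro a b hab
    apply Subtype.ext
    funext σ
    have h := congrFun (congrArg Subtype.val hab) (Encodable.encode σ)
    simp only [enc, Denumerable.ofNat_encode] at h
    exact Encodable.encode_injective h
  exact hinj.countable

instance nonempty_machines : Nonempty {φ : List ℕ → List ℕ // IsMachine φ} :=
  ⟨⟨fun σ => σ, isMachine_id⟩⟩

/-- Lower half: if `g` is not below `f` then a compatible separating problem is not above `g`. -/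
lemma exists_not_le_sepProblem {f g : Problem} (D : Set (ℕ → ℕ)) (s : (ℕ → ℕ) → (ℕ → ℕ))
    (hgf : ¬ g ≤ f) : ∃ w : Data, Compat w f ∧ ¬ g ≤ sepProblem D s w := by
  classical
  obtain ⟨e, he⟩ := exists_surjective_nat
    ({φ : List ℕ → List ℕ // IsMachine φ} × {φ : List ℕ → List ℕ // IsMachine φ})
  -- for each pair of machines a witness of failure
  have hfail : ∀ k, ∃ x, (g.sol x).Nonempty ∧ ¬ ∃ y, Maps (fun σ => ev ((e k).1.1 σ)) x y ∧
      (f.sol y).Nonempty ∧ ∀ z ∈ f.sol y, ∃ v ∈ g.sol x,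
        Maps (fun σ => (e k).2.1 (pr (ev σ) (1 :: od σ))) (pair x z) v := by
    intro k
    by_contra hcon
    push Not at hcon
    apply hgf
    refine ⟨fun σ => ev ((e k).1.1 σ), fun σ => (e k).2.1 (pr (ev σ) (1 :: od σ)),
      isMachine_ev.comp' (e k).1.2,
      (e k).2.2.comp' (isMachine_ev.pr (isMachine_cons 1 isMachine_od)), ?_⟩
    intro x hx
    obtain ⟨y, h1, h2, h3⟩ := hcon x hx
    exact ⟨y, h1, h2, h3⟩
  choose x hx hnx using hfail
  have hex : ∀ k, ∃ d : Option ((ℕ → ℕ) × Option (ℕ → ℕ)),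
      (∀ p, Maps (fun σ => ev ((e k).1.1 σ)) (x k) p →
        (f.sol p = ∅ ∧ d = some (p, none)) ∨
        ∃ z ∈ f.sol p, d = some (p, some z) ∧ ¬ ∃ v ∈ g.sol (x k),
          Maps (fun σ => (e k).2.1 (pr (ev σ) (1 :: od σ))) (pair (x k) z) v) ∧
      ((¬ ∃ p, Maps (fun σ => ev ((e k).1.1 σ)) (x k) p) → d = none) := by
    intro k
    by_cases h : ∃ p, Maps (fun σ => ev ((e k).1.1 σ)) (x k) p
    · obtain ⟨p, hp⟩ := h
      by_cases h' : ∃ z ∈ f.sol p, ¬ ∃ v ∈ g.sol (x k),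
          Maps (fun σ => (e k).2.1 (pr (ev σ) (1 :: od σ))) (pair (x k) z) v
      · obtain ⟨z, hz, hz'⟩ := h'
        refine ⟨some (p, some z), fun p' hp' => ?_, fun hn => (hn ⟨p, hp⟩).elim⟩
        obtain rfl := Maps.unique hp hp'
        exact Or.inr ⟨z, hz, rfl, hz'⟩
      · refine ⟨some (p, none), fun p' hp' => ?_, fun hn => (hn ⟨p, hp⟩).elim⟩
        obtain rfl := Maps.unique hp hp'
        refine Or.inl ⟨?_, rfl⟩
        by_contra hne
        apply hnx k
        push Not at h'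
        exact ⟨p, hp, nonempty_iff_ne_empty.2 hne, h'⟩
    · exact ⟨none, fun p hp => (h ⟨p, hp⟩).elim, fun _ => rfl⟩
  choose w hwk hwn using hex
  have hcompat : Compat w f := by
    intro k
    by_cases h : ∃ p, Maps (fun σ => ev ((e k).1.1 σ)) (x k) p
    · obtain ⟨p, hp⟩ := h
      rcases hwk k p hp with ⟨h1, h2⟩ | ⟨z, hz, h2, -⟩
      · refine ⟨fun p' hp' => ?_, fun p' y hp' => ?_⟩
        · rw [h2] at hp'
          simp only [Option.some.injEq, Prod.mk.injEq, and_true] at hp'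
          rw [← hp']; exact h1
        · rw [h2] at hp'; simp at hp'
      · refine ⟨fun p' hp' => ?_, fun p' y hp' => ?_⟩
        · rw [h2] at hp'; simp at hp'
        · rw [h2] at hp'
          simp only [Option.some.injEq, Prod.mk.injEq] at hp'
          rw [← hp'.1, ← hp'.2]; exact hz
    · have : w k = none := hwn k h
      refine ⟨fun p' hp' => ?_, fun p' y hp' => ?_⟩ <;> rw [this] at hp' <;> simp at hp'
  refine ⟨w, hcompat, ?_⟩
  rintro ⟨φ, ψ, hφ, hψ, r⟩
  obtain ⟨k, hk⟩ := he (⟨φ, hφ⟩, ⟨ψ, hψ⟩)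
  obtain ⟨y, hy, ⟨t, p, q, hpq, hnone, ht⟩, hr⟩ := r (x k) (hx k)
  have hφk : (e k).1.1 = φ := by rw [hk]
  have hψk : (e k).2.1 = ψ := by rw [hk]
  have hp : Maps (fun σ => ev ((e k).1.1 σ)) (x k) p := by
    rw [hφk]
    refine Maps.comp isMachine_ev hy ?_
    rw [hpq]; exact maps_ev p q
  rcases hwk k p hp with ⟨-, h2⟩ | ⟨z, hz, h2, h3⟩
  · exact hnone k h2
  · apply h3
    obtain ⟨v, hv, hv'⟩ := hr (tag 1 z) ⟨p, q, hpq, hnone, Or.inl ⟨k, z, h2, rfl⟩⟩
    refine ⟨v, hv, ?_⟩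
    rw [hψk]
    refine Maps.comp hψ ?_ hv'
    exact Maps.pr isMachine_ev (isMachine_cons 1 isMachine_od) (maps_ev _ _)
      (maps_cons 1 (maps_od _ _))

/-- The order embedding of a lower cone into a power set. -/
theorem lower_cone_embeds (u : Problem) :
    ∃ E : Problem → Set Data, (∀ f g : Problem, f ≤ g → E f ⊆ E g) ∧
      ∀ f g : Problem, f ≤ u → E g ⊆ E f → g ≤ f := by
  classical
  let D : Set (ℕ → ℕ) := {q | (u.sol q).Nonempty}
  let s : (ℕ → ℕ) → (ℕ → ℕ) := fun q => if h : (u.sol q).Nonempty then h.some else q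
  have hD : ∀ q, (u.sol q).Nonempty → q ∈ D ∧ s q ∈ u.sol q := by
    intro q hq
    refine ⟨hq, ?_⟩
    simp only [s]
    rw [dif_pos hq]
    exact hq.some_mem
  refine ⟨fun f => {w | ¬ f ≤ sepProblem D s w}, fun f g hfg w hw hg => hw (hfg.trans hg), ?_⟩
  intro f g hfu hgf
  by_contra hcon
  obtain ⟨w, hw, hng⟩ := exists_not_le_sepProblem D s hcon
  exact hgf hng (le_sepProblem hD hfu hw)

end Pool.Agent.H190R3.Wei
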