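import Pool.Agent.H190R3.WeiCard
import Pool.Agent.H190R3.WeiAnti

/-! The power set of the continuum has a chain of size the successor of the continuum (classical),
hence so do the Weihrauch degrees. -/

namespace Pool.Agent.H190R3.Wei

open Set Cardinal

theorem powersetChain_le {κ : Cardinal.{0}}
    (hκ : κ ≤ 2 ^ sInf {μ : Cardinal.{0} | 𝔠 < 2 ^ μ}) : PowersetChain κ := by
  classical
  let A : Set Cardinal.{0} := {μ | 𝔠 < 2 ^ μ}
  have hA : A.Nonempty := ⟨𝔠, Cardinal.cantor _⟩
  let μ := sInf A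
  have hμ : 𝔠 < 2 ^ μ := csInf_mem hA
  have hμle : μ ≤ 𝔠 := csInf_le' (Cardinal.cantor 𝔠)
  have hlt : ∀ ν < μ, (2 : Cardinal.{0}) ^ ν ≤ 𝔠 := fun ν hν => by
    by_contra h
    exact notMem_of_lt_csInf' hν (not_le.1 h)
  let T := μ.ord.ToType
  have hT : #T = μ := by simp [T]
  let D := Σ i : T, (Iio i → Bool)
  have hD : #D ≤ 𝔠 := by
    rw [Cardinal.mk_sigma]
    calc Cardinal.sum (fun i : T => #(Iio i → Bool)) ≤ Cardinal.sum (fun _ : T => 𝔠) := by
          refine Cardinal.sum_le_sum _ _ fun i => ?_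
          rw [← Cardinal.power_def, Cardinal.mk_bool]
          exact hlt _ (by simpa [hT] using Cardinal.mk_Iio_toType_ord_lt i)
      _ = #T * 𝔠 := by simp
      _ ≤ 𝔠 * 𝔠 := mul_le_mul_left (hT ▸ hμle) _
      _ = 𝔠 := Cardinal.mul_eq_self Cardinal.aleph0_le_continuum
  let X := Lex (T → Bool)
  have hX : #X = 2 ^ μ := by
    show #(T → Bool) = _
    rw [← Cardinal.power_def, Cardinal.mk_bool, hT]
  let y : D → X := fun d => toLex fun j => if h : j < d.1 then d.2 ⟨j, h⟩ else decide (j = d.1)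
  let S : X → Set D := fun x => {d | y d ≤ x}
  have hmono : ∀ x x', x ≤ x' → S x ⊆ S x' := fun x x' h d hd => le_trans hd h
  have hstrict : ∀ x x', x < x' → ¬ S x' ⊆ S x := by
    intro x x' h hsub
    obtain ⟨i, hi, hi'⟩ := h
    have hxi : x i = false ∧ x' i = true := by
      have : x i < x' i := hi'
      revert this
      cases x i <;> cases x' i <;> simp
    let d : D := ⟨i, fun j => x j.1⟩
    have h1 : y d ≤ x' := by
      apply Pi.toLex_monotone
      intro j
      show (if h : j < i then x j else decide (j = i)) ≤ x' j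
      by_cases hj : j < i
      · rw [dif_pos hj]; exact (hi j hj).le
      · rw [dif_neg hj]
        by_cases hji : j = i
        · rw [hji, hxi.2]; exact Bool.le_true _
        · simp [hji]
    have h2 : x < y d := by
      refine ⟨i, fun j hj => ?_, ?_⟩
      · show x j = (if h : j < i then x j else decide (j = i))
        rw [dif_pos hj]
      · show x i < (if h : i < i then x i else decide (i = i))
        rw [dif_neg (lt_irrefl i), hxi.1]; simp
    exact absurd (hsub h1) (not_le_of_gt h2)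
  obtain ⟨g⟩ : Nonempty (D ↪ (ℕ → ℕ)) := by
    rw [← Cardinal.le_def, mk_baire]; exact hD
  obtain ⟨X0, hX0⟩ := Cardinal.le_mk_iff_exists_set.1
    (show κ ≤ #X by rw [hX]; exact hκ)
  refine ⟨(fun x => g '' S x) '' X0, ?_, ?_⟩
  · rintro _ ⟨x, -, rfl⟩ _ ⟨x', -, rfl⟩ -
    rcases le_total x x' with h | h
    · exact Or.inl (image_mono (hmono _ _ h))
    · exact Or.inr (image_mono (hmono _ _ h))
  · rw [Cardinal.mk_image_eq_of_injOn, hX0]
    intro x _ x' _ hxx
    have h' : S x = S x' := (image_injective.2 g.injective) hxx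
    rcases lt_trichotomy x x' with h | h | h
    · exact absurd h'.ge (hstrict _ _ h)
    · exact h
    · exact absurd h'.le (hstrict _ _ h)

theorem powersetChain_succ : PowersetChain (Order.succ 𝔠) := by
  apply powersetChain_le
  have hA : {μ : Cardinal.{0} | 𝔠 < 2 ^ μ}.Nonempty := ⟨𝔠, Cardinal.cantor _⟩
  exact Order.succ_le_of_lt (csInf_mem hA)

theorem powersetChain_two_power (h : ∀ ν < (𝔠 : Cardinal.{0}), (2 : Cardinal.{0}) ^ ν ≤ 𝔠) :
    PowersetChain (2 ^ 𝔠) := by
  apply powersetChain_le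
  have hA : {μ : Cardinal.{0} | 𝔠 < 2 ^ μ}.Nonempty := ⟨𝔠, Cardinal.cantor _⟩
  refine Cardinal.power_le_power_left two_ne_zero ?_
  by_contra hlt
  exact absurd (csInf_mem hA) (not_lt_of_ge (h _ (not_le.1 hlt)))

theorem degreeChain_of_powersetChain {κ : Cardinal.{0}} (h : PowersetChain κ) : DegreeChain κ := by
  obtain ⟨S, hS, hSκ⟩ := h
  obtain ⟨F, hF⟩ := powerset_embeds
  refine ⟨(fun A => toAntisymmetrization (· ≤ ·) (F A)) '' S, ?_, ?_⟩
  · rintro _ ⟨A, hA, rfl⟩ _ ⟨B, hB, rfl⟩ -
    rcases hS.total hA hB with h | h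
    · exact Or.inl (toAntisymmetrization_le_toAntisymmetrization_iff.2 ((hF A B).2 h))
    · exact Or.inr (toAntisymmetrization_le_toAntisymmetrization_iff.2 ((hF B A).2 h))
  · rw [Cardinal.mk_image_eq_of_injOn, hSκ]
    intro A _ B _ hAB
    have h1 : toAntisymmetrization (· ≤ ·) (F A) ≤ toAntisymmetrization (· ≤ ·) (F B) := hAB.le
    have h2 : toAntisymmetrization (· ≤ ·) (F B) ≤ toAntisymmetrization (· ≤ ·) (F A) := hAB.ge
    rw [toAntisymmetrization_le_toAntisymmetrization_iff] at h1 h2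
    exact Subset.antisymm ((hF A B).1 h1) ((hF B A).1 h2)

end Pool.Agent.H190R3.Wei
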